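import Pool.Agent.W257.HL.Stm

/-!
QUAD: the quartic of an integral point is a product of two quadratic polynomials.
-/

set_option autoImplicit false

namespace Pool.Agent.W864.HL

open Pool.Agent.W257.HL

theorem abs_le_of_dvd_ne {a D : ℤ} (h : a ∣ D) (hD : D ≠ 0) : |a| ≤ |D| := by
  have h1 : |a| ∣ |D| := (abs_dvd_abs a D).mpr h
  exact Int.le_of_dvd (abs_pos.mpr hD) h1

theorem q_le_of_sq_sub_sq {p q D : ℤ} (h : p ^ 2 - q ^ 2 = D) (hD : D ≠ 0) : |q| ≤ |D| := by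
  have h1 : D = (p - q) * (p + q) := by rw [← h]; ring
  have ha : |p - q| ≤ |D| := abs_le_of_dvd_ne ⟨_, h1⟩ hD
  have hb : |p + q| ≤ |D| := abs_le_of_dvd_ne ⟨p - q, by rw [h1]; ring⟩ hD
  rw [abs_le] at ha hb ⊢
  constructor <;> omega

theorem quad : S_QUAD := by
  refine ⟨33, ?_⟩
  intro A B x y s m n hd hy h1 h2 h3
  obtain ⟨H, hH⟩ : ∃ H : ℕ, H = max A.natAbs B.natAbs := ⟨_, rfl⟩
  rw [← hH]
  have hA : |A| ≤ (H : ℤ) := by
    rw [Int.abs_eq_natAbs, hH]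
    exact_mod_cast le_max_left _ _
  have hB : |B| ≤ (H : ℤ) := by
    rw [Int.abs_eq_natAbs, hH]
    exact_mod_cast le_max_right _ _
  have hH1 : (1 : ℤ) ≤ (H : ℤ) := by
    by_contra hc
    have hH0 : (H : ℤ) ≤ 0 := by omega
    have hA0 : A = 0 := abs_nonpos_iff.mp (hA.trans hH0)
    have hB0 : B = 0 := abs_nonpos_iff.mp (hB.trans hH0)
    apply hd
    rw [hA0, hB0]
    norm_num
  -- the resolvent
  obtain ⟨E, hE⟩ : ∃ E : ℤ, E = s ^ 2 - 4 * x := ⟨_, rfl⟩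
  have hnm : (n - m) ^ 2 = (s ^ 2 - 6 * x) ^ 2 + 4 * (3 * x ^ 2 + 4 * A) := by
    have h4 : m + n = s ^ 2 - 6 * x := by linarith
    have h5 : (n - m) ^ 2 = (m + n) ^ 2 - 4 * (m * n) := by ring
    rw [h5, h4, h3]
    ring
  have hEeq : E ^ 3 + 16 * A * E = 64 * B := by
    have h6 : s ^ 2 * (n - m) ^ 2 = 64 * y ^ 2 := by
      have : (s * (n - m)) ^ 2 = (8 * y) ^ 2 := by rw [h2]
      linarith [this, mul_pow s (n - m) 2, mul_pow (8 : ℤ) y 2]
    rw [hnm, hy] at h6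
    rw [hE]
    linarith
  have hD : (2 * (n - m)) ^ 2 - (8 * x - E) ^ 2 = 3 * E ^ 2 + 64 * A := by
    have : (2 * (n - m)) ^ 2 = 4 * (n - m) ^ 2 := by ring
    rw [this, hnm, hE]
    ring
  have hDne : 3 * E ^ 2 + 64 * A ≠ 0 := by
    intro h0
    apply hd
    have hA' : 64 * A = -(3 * E ^ 2) := by linarith
    have hB' : 256 * B = E ^ 3 := by
      have : 4 * (E ^ 3 + 16 * A * E) = 256 * B := by rw [hEeq]; ring
      have h7 : 4 * (E ^ 3 + 16 * A * E) = 4 * E ^ 3 + (64 * A) * E := by ring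
      rw [h7, hA'] at this
      linarith
    have h8 : (4 * A ^ 3 + 27 * B ^ 2) * 65536 = 0 := by
      have h9 : (4 * A ^ 3 + 27 * B ^ 2) * 65536 = (64 * A) ^ 3 + 27 * (256 * B) ^ 2 := by ring
      rw [h9, hA', hB']
      ring
    rcases mul_eq_zero.mp h8 with h | h
    · exact h
    · norm_num at h
  have hEb : |E| ≤ 8 * (H : ℤ) := by
    by_contra hc
    push Not at hc
    have habs : |E| ^ 3 ≤ 16 * (H : ℤ) * |E| + 64 * (H : ℤ) := by
      have e1 : |E| ^ 3 = |E ^ 3| := (abs_pow E 3).symm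
      have e2 : E ^ 3 = 64 * B - 16 * A * E := by linarith
      rw [e1, e2]
      have e3 : |64 * B - 16 * A * E| ≤ |64 * B| + |16 * A * E| := abs_sub _ _
      have e4 : |64 * B| = 64 * |B| := by rw [abs_mul]; norm_num
      have e5 : |16 * A * E| = 16 * |A| * |E| := by rw [abs_mul, abs_mul]; norm_num
      have e6 : |A| * |E| ≤ (H : ℤ) * |E| := mul_le_mul_of_nonneg_right hA (abs_nonneg E)
      rw [e4, e5] at e3
      nlinarith
    obtain ⟨t, ht⟩ : ∃ t : ℤ, t = |E| := ⟨_, rfl⟩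
    rw [← ht] at hc habs
    have hH0 : (0 : ℤ) ≤ H := by omega
    have ht0 : 0 ≤ t := by omega
    have h10 : (8 * (H : ℤ)) ^ 2 ≤ t ^ 2 := by nlinarith
    have h11 : (8 * (H : ℤ)) ^ 2 * t ≤ t ^ 3 := by nlinarith
    have h12 : 64 * (H : ℤ) ^ 2 * t ≥ 64 * (H : ℤ) * t := by
      have : (H : ℤ) * t ≤ (H : ℤ) ^ 2 * t := by nlinarith [mul_nonneg hH0 ht0]
      nlinarith
    have h13 : (H : ℤ) * t ≥ 8 * (H : ℤ) := by nlinarith
    nlinarith
  have hqb : |8 * x - E| ≤ |3 * E ^ 2 + 64 * A| := q_le_of_sq_sub_sq hD hDne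
  have hDb : |3 * E ^ 2 + 64 * A| ≤ 256 * (H : ℤ) ^ 2 := by
    have e1 : |3 * E ^ 2 + 64 * A| ≤ |3 * E ^ 2| + |64 * A| := abs_add_le _ _
    have e2 : |3 * E ^ 2| = 3 * |E| ^ 2 := by rw [abs_mul, abs_pow]; norm_num
    have e3 : |64 * A| = 64 * |A| := by rw [abs_mul]; norm_num
    rw [e2, e3] at e1
    have e4 : |E| ^ 2 ≤ (8 * (H : ℤ)) ^ 2 := by
      exact pow_le_pow_left₀ (abs_nonneg E) hEb 2
    nlinarith
  have hx : |x| ≤ 33 * (H : ℤ) ^ 2 := by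
    have e1 : |8 * x| ≤ |8 * x - E| + |E| := by
      have := abs_add_le (8 * x - E) E
      simpa using this
    have e2 : |8 * x| = 8 * |x| := by rw [abs_mul]; norm_num
    rw [e2] at e1
    have e3 : (H : ℤ) ≤ (H : ℤ) ^ 2 := by nlinarith
    nlinarith
  have hx' : x.natAbs ≤ 33 * H ^ 2 := by
    rw [Int.abs_eq_natAbs] at hx
    exact_mod_cast hx
  have hH1' : 1 ≤ H := by exact_mod_cast hH1
  calc x.natAbs ≤ 33 * H ^ 2 := hx'
    _ ≤ 33 * H ^ 20 := by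
        apply Nat.mul_le_mul_left
        exact Nat.pow_le_pow_right hH1' (by norm_num)

end Pool.Agent.W864.HL
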